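import Pool.Agent.helper64.PB.SpecB

/-!
# pb:MON (helper31)
-/

set_option autoImplicit false

namespace Pool.Agent.PB

lemma MON_ext (F : BF 3) (φ : Bool → Bool → Bool → Bool) (h : ∀ a b c, F ![a, b, c] = φ a b c) :
    F = fun z => φ (z 0) (z 1) (z 2) := by
  funext z
  rw [← h]
  congr 1
  funext i
  refine Fin.cases rfl (fun i => Fin.cases rfl (fun i => ?_) i) i
  have hi : i = 0 := Subsingleton.elim _ _
  subst hi
  rfl

lemma MON_perm (hCLP : CLP_stmt) (G : Set Gate) (F : BF 3) (hF : InCl G F) (n : ℕ)
    (a b c : Fin n) : InCl G (fun z : Fin n → Bool => F ![z a, z b, z c]) := by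
  have h := hCLP.2 G 3 n F ![fun z => z a, fun z => z b, fun z => z c] hF (by
    intro i
    refine Fin.cases (hCLP.1 G n a) (fun i => Fin.cases (hCLP.1 G n b) (fun i => ?_) i) i
    have hi : i = 0 := Subsingleton.elim _ _
    subst hi
    exact hCLP.1 G n c)
  have h2 : (fun x : Fin n → Bool => F fun i =>
      (![fun z => z a, fun z => z b, fun z => z c] : Fin 3 → BF n) i x) =
      fun z : Fin n → Bool => F ![z a, z b, z c] := by
    funext x
    congr 1
    funext i
    refine Fin.cases rfl (fun i => Fin.cases rfl (fun i => ?_) i) i
    have hi : i = 0 := Subsingleton.elim _ _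
    subst hi
    rfl
  rw [h2] at h
  exact h

lemma MON_gate (G : Set Gate) (g : Gate) (hg : g ∈ G) (σ : Fin g.1 → Fin 3) :
    InCl G (fun z : Fin 3 → Bool => g.2 fun i => z (σ i)) :=
  ⟨1, _, Prog.step [] g (fun i z => z (σ i)) Prog.nil hg (fun i => Or.inr ⟨σ i, rfl⟩), le_rfl,
    Or.inl (by simp)⟩

lemma MON_min1 (G : Set Gate) (g : Gate) (hg : g ∈ G) (hm : Mono g.2)
    (hd : ¬ Disj g.2) : ∃ F : BF 3, InCl G F ∧ F ![true, true, false] = true ∧
      F ![true, false, false] = false ∧ F ![false, true, false] = false ∧
      ∀ a b c a' b' c' : Bool, (a = true → a' = true) → (b = true → b' = true) →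
      (c = true → c' = true) → F ![a, b, c] = true → F ![a', b', c'] = true := by
  have h1 : ∃ x y : Fin g.1 → Bool, g.2 x = false ∧ g.2 y = false ∧
      g.2 (fun i => x i || y i) = true := by
    by_contra hcon
    apply hd
    intro x y
    cases hx : g.2 x
    · cases hy : g.2 y
      · cases hxy : g.2 (fun i => x i || y i)
        · rfl
        · exact (hcon ⟨x, y, hx, hy, hxy⟩).elim
      · exact hm y _ (fun i hi => by simp [hi]) hy
    · exact hm x _ (fun i hi => by simp [hi]) hx
  obtain ⟨x, y, hx, hy, hxy⟩ := h1
  set σ : Fin g.1 → Fin 3 := fun i => if x i = true then 0 else if y i = true then 1 else 2 with hσ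
  set F : BF 3 := fun z => g.2 fun i => z (σ i) with hF
  have hFG : InCl G F := MON_gate G g hg σ
  have hFm : ∀ z w : Fin 3 → Bool, (∀ i, z i = true → w i = true) → F z = true → F w = true :=
    fun z w h => hm _ _ (fun i => h (σ i))
  have e110 : F ![true, true, false] = true := by
    refine Eq.trans ?_ hxy
    refine congrArg g.2 (funext fun i => ?_)
    show (![true, true, false] : Fin 3 → Bool) (if x i = true then 0 else if y i = true then 1 else 2) = _
    cases x i <;> cases y i <;> rfl
  have e100 : F ![true, false, false] = false := by
    refine Eq.trans ?_ hx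
    refine congrArg g.2 (funext fun i => ?_)
    show (![true, false, false] : Fin 3 → Bool) (if x i = true then 0 else if y i = true then 1 else 2) = _
    cases x i <;> cases y i <;> rfl
  have e010 : F ![false, true, false] = false := by
    cases h : F ![false, true, false]
    · rfl
    · have h2 : g.2 y = true := by
        refine hm _ y ?_ h
        intro i
        show (![false, true, false] : Fin 3 → Bool)
          (if x i = true then 0 else if y i = true then 1 else 2) = true → _
        cases x i <;> cases y i <;> simp
      rw [hy] at h2
      exact absurd h2 (by simp)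
  have hmono : ∀ a b c a' b' c' : Bool, (a = true → a' = true) → (b = true → b' = true) →
      (c = true → c' = true) → F ![a, b, c] = true → F ![a', b', c'] = true := by
    intro a b c a' b' c' h1 h2 h3
    apply hFm
    intro i
    refine Fin.cases h1 (fun i => Fin.cases h2 (fun i => ?_) i) i
    have hi : i = 0 := Subsingleton.elim _ _
    subst hi
    exact h3
  exact ⟨F, hFG, e110, e100, e010, hmono⟩

lemma MON_one (hCLP : CLP_stmt) (G : Set Gate) (g : Gate) (hg : g ∈ G) (hm : Mono g.2)
    (hd : ¬ Disj g.2) : InCl G fAO ∨ InCl G fOA ∨ InCl G fMaj ∨ InCl G fAnd := by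
  obtain ⟨F, hFG, e110, e100, e010, hmono⟩ := MON_min1 G g hg hm hd
  have e000 : F ![false, false, false] = false := by
    cases h : F ![false, false, false]
    · rfl
    · have h2 := hmono false false false true false false (by simp) (by simp) (by simp) h
      rw [e100] at h2
      exact absurd h2 (by simp)
  have e111 : F ![true, true, true] = true :=
    hmono true true false true true true (by simp) (by simp) (by simp) e110
  have hpq := hmono false false true true false true (by simp) (by simp) (by simp)
  have hpr := hmono false false true false true true (by simp) (by simp) (by simp)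
  cases hq : F ![true, false, true]
  · have hp : F ![false, false, true] = false := by
      cases h : F ![false, false, true]
      · rfl
      · rw [hpq h] at hq
        exact absurd hq (by simp)
    cases hr : F ![false, true, true]
    · -- conjunction
      right; right; right
      have h2 := MON_ext F (fun a b c => a && b) (by
        intro a b c
        cases a <;> cases b <;> cases c <;> simp [*])
      have h3 := MON_perm hCLP G F hFG 2 0 1 0
      have h4 : (fun z : Fin 2 → Bool => F ![z 0, z 1, z 0]) = fAnd := by
        rw [h2]
        rfl
      rw [h4] at h3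
      exact h3
    · left
      have h2 := MON_ext F (fun a b c => b && (a || c)) (by
        intro a b c
        cases a <;> cases b <;> cases c <;> simp [*])
      have h3 := MON_perm hCLP G F hFG 3 1 0 2
      have h4 : (fun z : Fin 3 → Bool => F ![z 1, z 0, z 2]) = fAO := by
        rw [h2]
        rfl
      rw [h4] at h3
      exact h3
  · cases hr : F ![false, true, true]
    · have hp : F ![false, false, true] = false := by
        cases h : F ![false, false, true]
        · rfl
        · rw [hpr h] at hr
          exact absurd hr (by simp)
      left
      have h2 := MON_ext F (fun a b c => a && (b || c)) (by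
        intro a b c
        cases a <;> cases b <;> cases c <;> simp [*])
      have h4 : F = fAO := h2
      rw [← h4]
      exact hFG
    · cases hp : F ![false, false, true]
      · right; right; left
        have h2 := MON_ext F (fun a b c => (a && b) || (a && c) || (b && c)) (by
          intro a b c
          cases a <;> cases b <;> cases c <;> simp [*])
        have h4 : F = fMaj := h2
        rw [← h4]
        exact hFG
      · right; left
        have h2 := MON_ext F (fun a b c => c || (a && b)) (by
          intro a b c
          cases a <;> cases b <;> cases c <;> simp [*])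
        have h3 := MON_perm hCLP G F hFG 3 1 2 0
        have h4 : (fun z : Fin 3 → Bool => F ![z 1, z 2, z 0]) = fOA := by
          rw [h2]
          rfl
        rw [h4] at h3
        exact h3

lemma MON_min2 (G : Set Gate) (g : Gate) (hg : g ∈ G) (hm : Mono g.2)
    (hd : ¬ Conj g.2) : ∃ F : BF 3, InCl G F ∧ F ![false, false, true] = false ∧
      F ![false, true, true] = true ∧ F ![true, false, true] = true ∧
      ∀ a b c a' b' c' : Bool, (a = true → a' = true) → (b = true → b' = true) →
      (c = true → c' = true) → F ![a, b, c] = true → F ![a', b', c'] = true := by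
  have h1 : ∃ x y : Fin g.1 → Bool, g.2 x = true ∧ g.2 y = true ∧
      g.2 (fun i => x i && y i) = false := by
    by_contra hcon
    apply hd
    intro x y
    cases hxy : g.2 (fun i => x i && y i)
    · cases hx : g.2 x
      · rfl
      · cases hy : g.2 y
        · rfl
        · exact (hcon ⟨x, y, hx, hy, hxy⟩).elim
    · have hx : g.2 x = true := hm _ x (fun i hi => by
        rw [Bool.and_eq_true] at hi
        exact hi.1) hxy
      have hy : g.2 y = true := hm _ y (fun i hi => by
        rw [Bool.and_eq_true] at hi
        exact hi.2) hxy
      rw [hx, hy]
      rfl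
  obtain ⟨x, y, hx, hy, hxy⟩ := h1
  set σ : Fin g.1 → Fin 3 := fun i => if x i = false then 0 else if y i = false then 1 else 2 with hσ
  set F : BF 3 := fun z => g.2 fun i => z (σ i) with hF
  have hFG : InCl G F := MON_gate G g hg σ
  have hFm : ∀ z w : Fin 3 → Bool, (∀ i, z i = true → w i = true) → F z = true → F w = true :=
    fun z w h => hm _ _ (fun i => h (σ i))
  have e001 : F ![false, false, true] = false := by
    refine Eq.trans ?_ hxy
    refine congrArg g.2 (funext fun i => ?_)
    show (![false, false, true] : Fin 3 → Bool) (if x i = false then 0 else if y i = false then 1 else 2) = _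
    cases x i <;> cases y i <;> rfl
  have e011 : F ![false, true, true] = true := by
    refine Eq.trans ?_ hx
    refine congrArg g.2 (funext fun i => ?_)
    show (![false, true, true] : Fin 3 → Bool) (if x i = false then 0 else if y i = false then 1 else 2) = _
    cases x i <;> cases y i <;> rfl
  have e101 : F ![true, false, true] = true := by
    refine hm y _ ?_ hy
    intro i
    show _ → (![true, false, true] : Fin 3 → Bool)
      (if x i = false then 0 else if y i = false then 1 else 2) = true
    cases x i <;> cases y i <;> simp
  have hmono : ∀ a b c a' b' c' : Bool, (a = true → a' = true) → (b = true → b' = true) →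
      (c = true → c' = true) → F ![a, b, c] = true → F ![a', b', c'] = true := by
    intro a b c a' b' c' h1 h2 h3
    apply hFm
    intro i
    refine Fin.cases h1 (fun i => Fin.cases h2 (fun i => ?_) i) i
    have hi : i = 0 := Subsingleton.elim _ _
    subst hi
    exact h3
  exact ⟨F, hFG, e001, e011, e101, hmono⟩

lemma MON_two (hCLP : CLP_stmt) (G : Set Gate) (g : Gate) (hg : g ∈ G) (hm : Mono g.2)
    (hd : ¬ Conj g.2) : InCl G fAO ∨ InCl G fOA ∨ InCl G fMaj ∨ InCl G fOr := by
  obtain ⟨F, hFG, e001, e011, e101, hmono⟩ := MON_min2 G g hg hm hd
  have e000 : F ![false, false, false] = false := by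
    cases h : F ![false, false, false]
    · rfl
    · have h2 := hmono false false false false false true (by simp) (by simp) (by simp) h
      rw [e001] at h2
      exact absurd h2 (by simp)
  have e111 : F ![true, true, true] = true :=
    hmono false true true true true true (by simp) (by simp) (by simp) e011
  have hqp := hmono true false false true true false (by simp) (by simp) (by simp)
  have hrp := hmono false true false true true false (by simp) (by simp) (by simp)
  cases hp : F ![true, true, false]
  · have hq : F ![true, false, false] = false := by
      cases h : F ![true, false, false]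
      · rfl
      · rw [hqp h] at hp
        exact absurd hp (by simp)
    have hr : F ![false, true, false] = false := by
      cases h : F ![false, true, false]
      · rfl
      · rw [hrp h] at hp
        exact absurd hp (by simp)
    left
    have h2 := MON_ext F (fun a b c => c && (a || b)) (by
      intro a b c
      cases a <;> cases b <;> cases c <;> simp [*])
    have h3 := MON_perm hCLP G F hFG 3 1 2 0
    have h4 : (fun z : Fin 3 → Bool => F ![z 1, z 2, z 0]) = fAO := by
      rw [h2]
      rfl
    rw [h4] at h3
    exact h3
  · cases hq : F ![true, false, false]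
    · cases hr : F ![false, true, false]
      · right; right; left
        have h2 := MON_ext F (fun a b c => (a && b) || (a && c) || (b && c)) (by
          intro a b c
          cases a <;> cases b <;> cases c <;> simp [*])
        have h4 : F = fMaj := h2
        rw [← h4]
        exact hFG
      · right; left
        have h2 := MON_ext F (fun a b c => b || (a && c)) (by
          intro a b c
          cases a <;> cases b <;> cases c <;> simp [*])
        have h3 := MON_perm hCLP G F hFG 3 1 0 2
        have h4 : (fun z : Fin 3 → Bool => F ![z 1, z 0, z 2]) = fOA := by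
          rw [h2]
          rfl
        rw [h4] at h3
        exact h3
    · cases hr : F ![false, true, false]
      · right; left
        have h2 := MON_ext F (fun a b c => a || (b && c)) (by
          intro a b c
          cases a <;> cases b <;> cases c <;> simp [*])
        have h4 : F = fOA := h2
        rw [← h4]
        exact hFG
      · right; right; right
        have h2 := MON_ext F (fun a b c => a || b) (by
          intro a b c
          cases a <;> cases b <;> cases c <;> simp [*])
        have h3 := MON_perm hCLP G F hFG 2 0 1 0
        have h4 : (fun z : Fin 2 → Bool => F ![z 0, z 1, z 0]) = fOr := by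
          rw [h2]
          rfl
        rw [h4] at h3
        exact h3

theorem MON (hCLP : CLP_stmt) : MON_stmt := by
  intro G hm hc hd
  push Not at hc hd
  obtain ⟨g1, hg1, hc1⟩ := hc
  obtain ⟨g2, hg2, hd2⟩ := hd
  rcases MON_one hCLP G g2 hg2 (hm g2 hg2) hd2 with h | h | h | hA
  · exact Or.inl h
  · exact Or.inr (Or.inl h)
  · exact Or.inr (Or.inr h)
  rcases MON_two hCLP G g1 hg1 (hm g1 hg1) hc1 with h | h | h | hO
  · exact Or.inl h
  · exact Or.inr (Or.inl h)
  · exact Or.inr (Or.inr h)
  left
  have h1 : InCl G (fun z : Fin 3 → Bool => z 1 || z 2) :=
    hCLP.2 G 2 3 fOr ![fun z => z 1, fun z => z 2] hO (by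
      intro i
      refine Fin.cases (hCLP.1 G 3 1) (fun i => ?_) i
      have hi : i = 0 := Subsingleton.elim _ _
      subst hi
      exact hCLP.1 G 3 2)
  exact hCLP.2 G 2 3 fAnd ![fun z => z 0, fun z => z 1 || z 2] hA (by
    intro i
    refine Fin.cases (hCLP.1 G 3 0) (fun i => ?_) i
    have hi : i = 0 := Subsingleton.elim _ _
    subst hi
    exact h1)

end Pool.Agent.PB
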