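import Pool.Agent.helper64.PB.SpecC

/-!
# pb:RTP (helper31)
-/

set_option autoImplicit false

namespace Pool.Agent.PB

lemma RTP_mono (G : Set Gate) {n : ℕ} (f : BF n) (s s' : ℕ) (h : Size G f s) (hs : s ≤ s') :
    Size G f s' := by
  obtain ⟨l, h1, h2, h3⟩ := h
  exact ⟨l, h1, h2.trans hs, h3⟩

lemma RTP_av {n : ℕ} (l l' : List (BF n)) (f : BF n) (h : Av l f) : Av (l' ++ l) f := by
  rcases h with h | h
  · exact Or.inl (List.mem_append_right _ h)
  · exact Or.inr h

lemma RTP_vars (hSUB : SUB_stmt) (G : Set Gate) (cA : ℕ) (hA : Size G fAnd cA) {n : ℕ} (t : BF n)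
    (l : List (BF n)) (hl : Prog G n l) (ht : Av l t) (J : List (Fin n)) :
    ∃ l', Prog G n (l' ++ l) ∧ l'.length ≤ cA * J.length ∧
      ∀ j ∈ J, Av (l' ++ l) (fun x => t x && x j) := by
  induction J with
  | nil => exact ⟨[], hl, by simp, by simp⟩
  | cons j J ih =>
    obtain ⟨l', h1, h2, h3⟩ := ih
    obtain ⟨l'', h4, h5, h6⟩ := hSUB G 2 n fAnd cA (l' ++ l) ![t, fun x => x j] hA h1 (by
      intro i
      refine Fin.cases ?_ (fun i => ?_) i
      · exact RTP_av _ _ _ ht
      · have hi : i = 0 := Subsingleton.elim _ _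
        subst hi
        exact Or.inr ⟨j, rfl⟩)
    refine ⟨l'' ++ l', ?_, ?_, ?_⟩
    · rw [List.append_assoc]
      exact h4
    · rw [List.length_append, List.length_cons, Nat.mul_succ]
      omega
    · intro i hi
      rw [List.append_assoc]
      rcases List.mem_cons.1 hi with rfl | hi
      · exact h6
      · exact RTP_av _ _ _ (h3 i hi)

theorem RTP (hSIM : SIM_stmt) (hALA : ALA_stmt) (hSUB : SUB_stmt) (hAPP : APP_stmt)
    (hCLP : CLP_stmt) : RTP_stmt := by
  intro G hM
  have hM' : ∀ (m : ℕ) (a b c : BF m), InCl G a → InCl G b → InCl G c →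
      InCl G (fun x => a x && (b x || !(c x))) := by
    intro m a b c ha hb hc
    refine hCLP.2 G 3 m fM ![a, b, c] hM ?_
    intro i
    refine Fin.cases ha (fun i => Fin.cases hb (fun i => ?_) i) i
    have hi : i = 0 := Subsingleton.elim _ _
    subst hi
    exact hc
  have hAnd : InCl G fAnd := by
    have h1 := hM' 2 (fun x => x 0) (fun x => x 1) (fun x => x 0) (hCLP.1 G 2 0) (hCLP.1 G 2 1)
      (hCLP.1 G 2 0)
    have h2 : (fun x : Fin 2 → Bool => x 0 && (x 1 || !(x 0))) = fAnd := by
      funext x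
      show (x 0 && (x 1 || !(x 0))) = (x 0 && x 1)
      cases x 0 <;> cases x 1 <;> rfl
    rw [h2] at h1
    exact h1
  have hA' : ∀ (m : ℕ) (a b : BF m), InCl G a → InCl G b → InCl G (fun x => a x && b x) := by
    intro m a b ha hb
    refine hCLP.2 G 2 m fAnd ![a, b] hAnd ?_
    intro i
    refine Fin.cases ha (fun i => ?_) i
    have hi : i = 0 := Subsingleton.elim _ _
    subst hi
    exact hb
  obtain ⟨cA, hcA⟩ := hAnd
  obtain ⟨cB, hcB⟩ := hALA G ⟨cA, hcA⟩
  -- the three functions
  set Γa : BF 4 := fun y => y 0 && y 1 with hΓa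
  set Γn : BF 3 := fun y => y 1 && (y 2 || !(y 0)) with hΓn
  set N0 : BF 4 := fun y => y 2 && (y 3 || !(y 0)) with hN0
  set N1 : BF 4 := fun y => y 2 && (y 3 || !(y 1)) with hN1
  set Γo : BF 4 := fun y => y 2 && (y 3 || !(N0 y && N1 y)) with hΓo
  obtain ⟨s1, hs1⟩ : InCl G Γa := hA' 4 _ _ (hCLP.1 G 4 0) (hCLP.1 G 4 1)
  obtain ⟨s2, hs2⟩ : InCl G Γn := hM' 3 _ _ _ (hCLP.1 G 3 1) (hCLP.1 G 3 2) (hCLP.1 G 3 0)
  have hN0' : InCl G N0 := hM' 4 _ _ _ (hCLP.1 G 4 2) (hCLP.1 G 4 3) (hCLP.1 G 4 0)
  have hN1' : InCl G N1 := hM' 4 _ _ _ (hCLP.1 G 4 2) (hCLP.1 G 4 3) (hCLP.1 G 4 1)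
  obtain ⟨s3, hs3⟩ : InCl G Γo :=
    hM' 4 _ _ (fun y => N0 y && N1 y) (hCLP.1 G 4 2) (hCLP.1 G 4 3) (hA' 4 _ _ hN0' hN1')
  refine ⟨cA + cB + (s1 + s2 + s3), ?_⟩
  intro n hn t f s s' ht hft hf1 hf
  obtain ⟨lt, hlt1, hlt2, hlt3⟩ := ht
  obtain ⟨lb, hlb1, hlb2, hlb3⟩ := hcB n hn
  have ht1 : t (fun _ => true) = true := hft _ hf1
  have hbt : ∀ x, allAnd n x = true → t x = true := by
    intro x hx
    unfold allAnd at hx
    rw [decide_eq_true_iff] at hx
    have : x = fun _ => true := funext hx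
    rw [this]
    exact ht1
  have hbx : ∀ x (j : Fin n), allAnd n x = true → x j = true := by
    intro x j hx
    unfold allAnd at hx
    rw [decide_eq_true_iff] at hx
    exact hx j
  obtain ⟨lv, hlv1, hlv2, hlv3⟩ := RTP_vars hSUB G cA hcA t (lb ++ lt)
    (hAPP G n lb lt hlb1 hlt1) (RTP_av _ _ _ hlt3) (List.finRange n)
  rw [List.length_finRange] at hlv2
  set S : BF n → BF n := fun u x => allAnd n x || (t x && u x) with hS
  have hlb3' : Av (lb ++ lt) (allAnd n) := by
    rcases hlb3 with h | h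
    · exact Or.inl (List.mem_append_left _ h)
    · exact Or.inr h
  have key := hSIM G n S t (allAnd n) (lv ++ (lb ++ lt)) (s1 + s2 + s3) Γa Γo Γn hlv1
    (RTP_av _ _ _ (RTP_av _ _ _ hlt3)) (RTP_av _ _ _ hlb3') ?_ ?_
    (RTP_mono G Γa _ _ hs1 (by omega)) (RTP_mono G Γo _ _ hs3 (by omega))
    (RTP_mono G Γn _ _ hs2 (by omega)) ?_ ?_ ?_ f s hf
  · have hSf : S f = f := by
      funext x
      show (allAnd n x || (t x && f x)) = f x
      cases hb : allAnd n x
      · cases hfx : f x
        · simp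
        · simp [hft x hfx]
      · have hx : x = fun _ => true := funext fun j => hbx x j hb
        rw [hx, hf1]
        simp
    rw [hSf] at key
    refine RTP_mono G f _ _ key ?_
    rw [List.length_append, List.length_append]
    have e1 : (cA + cB + (s1 + s2 + s3)) * (s + n) =
        cA * n + cB * n + (s1 + s2 + s3) * s + ((cA + cB) * s + (s1 + s2 + s3) * n) := by ring
    rw [e1]
    omega
  · intro j
    have h1 : S (fun x => x j) = fun x => t x && x j := by
      funext x
      show (allAnd n x || (t x && x j)) = (t x && x j)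
      cases hb : allAnd n x
      · simp
      · simp [hbt x hb, hbx x j hb]
    rw [h1]
    exact hlv3 j (List.mem_finRange j)
  · intro v
    cases v
    · have h1 : S (fC false n) = allAnd n := by
        funext x
        show (allAnd n x || (t x && false)) = allAnd n x
        simp
      rw [h1]
      exact RTP_av _ _ _ hlb3'
    · have h1 : S (fC true n) = t := by
        funext x
        show (allAnd n x || (t x && true)) = t x
        cases hb : allAnd n x
        · simp
        · simp [hbt x hb]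
      rw [h1]
      exact RTP_av _ _ _ (RTP_av _ _ _ hlt3)
  · intro u v
    funext x
    show (allAnd n x || (t x && (u x && v x))) =
      ((allAnd n x || (t x && u x)) && (allAnd n x || (t x && v x)))
    cases allAnd n x <;> cases t x <;> cases u x <;> cases v x <;> rfl
  · intro u v
    funext x
    show (allAnd n x || (t x && (u x || v x))) =
      (t x && (allAnd n x || !((t x && (allAnd n x || !(allAnd n x || (t x && u x)))) &&
        (t x && (allAnd n x || !(allAnd n x || (t x && v x)))))))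
    have h1 := hbt x
    revert h1
    cases allAnd n x <;> cases t x <;> cases u x <;> cases v x <;> simp
  · intro u
    funext x
    show (allAnd n x || (t x && !(u x))) =
      (t x && (allAnd n x || !(allAnd n x || (t x && u x))))
    have h1 := hbt x
    revert h1
    cases allAnd n x <;> cases t x <;> cases u x <;> simp

end Pool.Agent.PB
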