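import Pool.Agent.helper64.PB.SpecF

/-!
# pb:STP (helper31)
-/

set_option autoImplicit false

namespace Pool.Agent.PB

open Finset Polynomial

lemma STP_geom (t m : ℕ) (h : t ≤ m) :
    ∑ j ∈ Ioc t m, ((1 : ℝ) / 4) ^ j ≤ 1 / 3 * ((1 / 4) ^ t - (1 / 4) ^ m) := by
  induction m, h using Nat.le_induction with
  | base => simp
  | succ m hm ih =>
    rw [Finset.sum_Ioc_succ_top hm, pow_succ]
    linarith

lemma STP_min {P : Type} [DecidableEq P] (𝓐 : Finset (Finset P)) (B₀ : Finset P) (h : B₀ ∈ 𝓐) :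
    ∃ B ∈ 𝓐, B ⊆ B₀ ∧ ∀ B' ∈ 𝓐, B' ⊆ B → B' = B := by
  obtain ⟨B, hB, hmin⟩ := Finset.exists_min_image (𝓐.filter fun B => B ⊆ B₀) Finset.card
    ⟨B₀, Finset.mem_filter.2 ⟨h, Finset.Subset.refl _⟩⟩
  rw [Finset.mem_filter] at hB
  refine ⟨B, hB.1, hB.2, fun B' hB' hsub => ?_⟩
  exact Finset.eq_of_subset_of_card_le hsub
    (hmin B' (Finset.mem_filter.2 ⟨hB', hsub.trans hB.2⟩))

lemma STP_nj (q k n Q m j : ℕ) (hk : 0 < k) (hq : q = 4 * k) (hn : n ≤ k ^ j)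
    (hm : m * q ^ j ≤ n * Q) : m * 4 ^ j ≤ Q := by
  have h1 : (m * 4 ^ j) * k ^ j ≤ Q * k ^ j := by
    calc (m * 4 ^ j) * k ^ j = m * q ^ j := by rw [hq, mul_pow]; ring
      _ ≤ n * Q := hm
      _ ≤ k ^ j * Q := Nat.mul_le_mul_right Q hn
      _ = Q * k ^ j := mul_comm _ _
  exact Nat.le_of_mul_le_mul_right h1 (Nat.pow_pos hk)

theorem STP (hCLO : CLO_stmt) (hMCT : MCT_stmt) (hPCN : PCN_stmt) : STP_stmt := by
  intro K _ _ _ L G t ε 𝓑 hL ht hB
  obtain ⟨𝓐, hsub, hcl, herr⟩ := hCLO K (16 * t) L G t ε 𝓑 hB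
  have hmct := hMCT K (16 * t) L G t ε 𝓐 hL ht hcl
  have hq : Fintype.card K = 4 * (4 * t * L) := by
    rw [Fintype.card_congr ε, Fintype.card_prod, Fintype.card_fin, Fintype.card_fin]
    ring
  have hk : 0 < 4 * t * L := by positivity
  refine ⟨𝓐.filter (fun B => B.card ≤ t ∧ ∀ B' ∈ 𝓐, B' ⊆ B → B' = B), ⟨?_, ?_⟩, ?_, ?_⟩
  · intro B hB'
    rw [Finset.mem_filter] at hB'
    exact ⟨(hcl.1 B hB'.1).1, hB'.2.1⟩
  · intro j
    refine (Finset.card_le_card ?_).trans (hmct j)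
    intro B hB'
    rw [Finset.mem_filter, Finset.mem_filter] at hB'
    rw [Finset.mem_filter]
    exact ⟨hB'.1.1, hB'.2, hB'.1.2.2⟩
  · refine (Nat.mul_le_mul_right _ ?_).trans herr
    refine Nat.card_le_card_of_injective
      (fun ω => ⟨ω.1, ?_, ω.2.2⟩) ?_
    · obtain ⟨B, hB', hz⟩ := ω.2.1
      rw [Finset.mem_filter] at hB'
      exact ⟨B, hB'.1, hz⟩
    · intro ω ω' h
      have h2 := congrArg Subtype.val h
      exact Subtype.ext h2
  · classical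
    set 𝓜 := 𝓐.filter (fun B => B.card ≤ t ∧ ∀ B' ∈ 𝓐, B' ⊆ B → B' = B) with h𝓜
    set mn : ℕ → Finset (Finset (K × K)) := fun j =>
      𝓐.filter fun B => B.card = j ∧ ∀ B' ∈ 𝓐, B' ⊆ B → B' = B with hmn
    set N : Finset (K × K) → Finset (Fin (2 * t + 1) → K) := fun B =>
      univ.filter fun a : Fin (2 * t + 1) → K => ∀ z ∈ B, gr a z = true with hN
    have hcard : Nat.card {a : Fin (2 * t + 1) → K // Acc 𝓑 (gr a) ∧ ¬ Acc 𝓜 (gr a)} =
        (univ.filter fun a : Fin (2 * t + 1) → K => Acc 𝓑 (gr a) ∧ ¬ Acc 𝓜 (gr a)).card := by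
      rw [Nat.card_eq_fintype_card, Fintype.card_subtype]
    have hcov : (univ.filter fun a : Fin (2 * t + 1) → K => Acc 𝓑 (gr a) ∧ ¬ Acc 𝓜 (gr a)) ⊆
        (Ioc t (2 * t)).biUnion (fun j => (mn j).biUnion N) := by
      intro a ha
      rw [Finset.mem_filter] at ha
      obtain ⟨_, ⟨B₀, hB₀, hz₀⟩, hnot⟩ := ha
      obtain ⟨B, hBA, hBB, hmin⟩ := STP_min 𝓐 B₀ (hsub hB₀)
      have hz : ∀ z ∈ B, gr a z = true := fun z hz => hz₀ z (hBB hz)
      have hct : t < B.card := by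
        by_contra hle
        exact hnot ⟨B, Finset.mem_filter.2 ⟨hBA, not_lt.1 hle, hmin⟩, hz⟩
      rw [Finset.mem_biUnion]
      refine ⟨B.card, Finset.mem_Ioc.2 ⟨hct, (hcl.1 B hBA).2⟩, ?_⟩
      rw [Finset.mem_biUnion]
      exact ⟨B, Finset.mem_filter.2 ⟨hBA, rfl, hmin⟩, Finset.mem_filter.2 ⟨Finset.mem_univ _, hz⟩⟩
    have hle : (univ.filter fun a : Fin (2 * t + 1) → K => Acc 𝓑 (gr a) ∧ ¬ Acc 𝓜 (gr a)).card ≤
        ∑ j ∈ Ioc t (2 * t), ∑ B ∈ mn j, (N B).card :=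
      (Finset.card_le_card hcov).trans (Finset.card_biUnion_le.trans
        (Finset.sum_le_sum fun j _ => Finset.card_biUnion_le))
    have hj : ∀ j ∈ Ioc t (2 * t), (∑ B ∈ mn j, (N B).card) * 4 ^ j ≤
        Fintype.card K ^ (2 * t + 1) := by
      intro j hj
      rw [Finset.mem_Ioc] at hj
      refine STP_nj (Fintype.card K) (4 * t * L) (mn j).card _ _ j hk hq (hmct j) ?_
      have hcs : (mn j).card * Fintype.card K ^ (2 * t + 1) =
          ∑ _B ∈ mn j, Fintype.card K ^ (2 * t + 1) := by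
        rw [Finset.sum_const, smul_eq_mul]
      rw [Finset.sum_mul, hcs]
      refine Finset.sum_le_sum fun B hB' => ?_
      rw [Finset.mem_filter] at hB'
      have h1 := hPCN K (2 * t) B (hcl.1 B hB'.1).1 (by rw [hB'.2.1]; omega) (by
        rw [hq]
        have : 1 ≤ t * L := Nat.mul_pos ht hL
        nlinarith)
      rw [hB'.2.1] at h1
      exact h1
    rw [hcard]
    set n : ℕ := (univ.filter fun a : Fin (2 * t + 1) → K => Acc 𝓑 (gr a) ∧ ¬ Acc 𝓜 (gr a)).card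
    set Q : ℕ := Fintype.card K ^ (2 * t + 1) with hQ
    have hr : (n : ℝ) * (3 * 4 ^ t) ≤ Q := by
      have h1 : (n : ℝ) ≤ ∑ j ∈ Ioc t (2 * t), (Q : ℝ) * (1 / 4) ^ j := by
        calc (n : ℝ) ≤ ((∑ j ∈ Ioc t (2 * t), ∑ B ∈ mn j, (N B).card : ℕ) : ℝ) := by
              exact_mod_cast hle
          _ = ∑ j ∈ Ioc t (2 * t), ((∑ B ∈ mn j, (N B).card : ℕ) : ℝ) := by
              rw [Nat.cast_sum]
          _ ≤ ∑ j ∈ Ioc t (2 * t), (Q : ℝ) * (1 / 4) ^ j := by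
              refine Finset.sum_le_sum fun j hj' => ?_
              have h2 : (((∑ B ∈ mn j, (N B).card : ℕ) : ℝ)) * 4 ^ j ≤ Q := by
                exact_mod_cast hj j hj'
              have h3 : (0 : ℝ) < 4 ^ j := by positivity
              rw [one_div, inv_pow, ← div_eq_mul_inv, le_div_iff₀ h3]
              exact h2
      rw [← Finset.mul_sum] at h1
      have h2 := STP_geom t (2 * t) (by omega)
      have h3 : (0 : ℝ) ≤ (1 / 4) ^ (2 * t) := by positivity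
      have h4 : (n : ℝ) ≤ Q * (1 / 3 * (1 / 4) ^ t) := by
        refine h1.trans (mul_le_mul_of_nonneg_left ?_ (Nat.cast_nonneg _))
        linarith
      have h5 : ((1 : ℝ) / 4) ^ t * 4 ^ t = 1 := by
        rw [← mul_pow]
        norm_num
      calc (n : ℝ) * (3 * 4 ^ t) ≤ (Q * (1 / 3 * (1 / 4) ^ t)) * (3 * 4 ^ t) :=
            mul_le_mul_of_nonneg_right h4 (by positivity)
        _ = Q * ((1 / 4) ^ t * 4 ^ t) := by ring
        _ = Q := by rw [h5, mul_one]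
    exact_mod_cast hr

end Pool.Agent.PB
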